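import Mathlib
import Pool.Agent.H88.CertDefs
import Pool.Agent.H88.Cert3

open Pool.Agent.H88.Cert

theorem Pool.Agent.Results.MP_232e98_an.Yes.result : IsMinCert berg sz :=
  ⟨cert, minimal⟩
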